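import Pool.Agent.MP_52bf41_ag.H12.Spec

/-! Normal form over a Henselian local ring, and flatness from completed local rings. -/

open AlgebraicGeometry CategoryTheory Limits IsLocalRing Polynomial Matrix TensorProduct

namespace Pool.Agent.MP_52bf41_ag.H15

open H1 H12

section Diag

/-- The adjugate of `s - N` on an eigenbasis of `N`. -/
theorem adj_eig {K : Type} [Field K] {D : ℕ} {N Q : Matrix (Fin D) (Fin D) K} {t : Fin D → K}
    (hQ : Q.det ≠ 0) (h : N * Q = Q * diagonal t) (s : K) :
    (scalar (Fin D) s - N).adjugate * Q =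
      Q * diagonal fun i => ∏ j ∈ Finset.univ.erase i, (s - t j) := by
  have h1 : (scalar (Fin D) s - N) * Q = Q * diagonal fun j => s - t j := by
    rw [Matrix.sub_mul, h, scalar_commute s (fun _ => Commute.all _ _) Q, ← Matrix.mul_sub]
    congr 1
    rw [scalar_apply, diagonal_sub]
  have h2 := congrArg adjugate h1
  rw [adjugate_mul_distrib, adjugate_mul_distrib, adjugate_diagonal] at h2
  have h3 := congrArg (fun X => Q * X * Q) h2
  simp only [← Matrix.mul_assoc, mul_adjugate] at h3
  rw [Matrix.mul_assoc _ Q.adjugate, adjugate_mul, Matrix.smul_mul, Matrix.smul_mul,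
    Matrix.mul_smul, Matrix.one_mul, Matrix.mul_one] at h3
  exact smul_right_injective _ hQ h3

/-- Diagonalisation lifts from the residue field when the eigenvalues are distinct. -/
theorem exists_diag {A : Type} [CommRing A] [IsLocalRing A] [HenselianRing A (maximalIdeal A)]
    {D : ℕ} (N : Matrix (Fin D) (Fin D) A) {Q : Matrix (Fin D) (Fin D) (ResidueField A)}
    {t : Fin D → ResidueField A} (ht : Function.Injective t) (hQ : Q.det ≠ 0)
    (h : N.map (residue A) * Q = Q * diagonal t) :
    ∃ (V : Matrix (Fin D) (Fin D) A) (q : Fin D → A), IsUnit V.det ∧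
      (∀ i, residue A (q i) = t i) ∧ N * V = V * diagonal q := by
  have hQd : IsUnit Q.det := isUnit_iff_ne_zero.mpr hQ
  have h2 : N.charpoly.map (residue A) = ∏ i, (X - C (t i)) := by
    have : N.map (residue A) = (Q * diagonal t) * Q⁻¹ := by
      rw [← h, Matrix.mul_assoc, mul_nonsing_inv _ hQd, Matrix.mul_one]
    rw [← charpoly_map, this, charpoly_mul_comm, ← Matrix.mul_assoc, nonsing_inv_mul _ hQd,
      Matrix.one_mul, charpoly_diagonal]
  have hsep : (N.charpoly.map (residue A)).Separable := by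
    rw [h2]
    exact separable_prod_X_sub_C_iff.mpr ht
  have hq : ∀ i, ∃ a : A, N.charpoly.IsRoot a ∧ residue A a = t i := by
    intro i
    obtain ⟨a0, ha0⟩ := residue_surjective (t i)
    have h0 : (N.charpoly.map (residue A)).eval (t i) = 0 := by
      rw [h2, eval_prod]
      exact Finset.prod_eq_zero (Finset.mem_univ i) (by simp)
    obtain ⟨a, ha, ha'⟩ := HenselianRing.is_henselian (I := maximalIdeal A) N.charpoly
      (charpoly_monic N) a0 (by
        rw [← residue_eq_zero_iff, ← eval₂_at_apply, ha0, ← Polynomial.eval_map]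
        exact h0) (by
        refine (isUnit_iff_ne_zero (a := residue A _)).mpr ?_
        rw [← eval₂_at_apply, ha0, ← Polynomial.eval_map, ← derivative_map]
        exact hsep.eval₂_derivative_ne_zero (RingHom.id _) h0)
    refine ⟨a, ha, ?_⟩
    rw [← ha0, ← sub_eq_zero, ← map_sub, residue_eq_zero_iff]
    exact ha'
  choose q hq hq' using hq
  obtain ⟨P, hP⟩ : ∃ P : Matrix (Fin D) (Fin D) A, P.map (residue A) = Q := by
    choose P hP using fun i j => residue_surjective (Q i j)
    exact ⟨Matrix.of P, Matrix.ext hP⟩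
  let V : Matrix (Fin D) (Fin D) A :=
    Matrix.of fun i j => ((scalar (Fin D) (q j) - N).adjugate * P) i j
  have hV : V.map (residue A) =
      Q * diagonal fun i => ∏ j ∈ Finset.univ.erase i, (t i - t j) := by
    ext i j
    have h3 : ((scalar (Fin D) (q j) - N).adjugate * P).map (residue A) =
        (scalar (Fin D) (t j) - N.map (residue A)).adjugate * Q := by
      rw [Matrix.map_mul, hP]
      congr 1
      refine ((residue A).map_adjugate _).trans ?_
      congr 1
      ext a b
      simp [diagonal_apply, apply_ite, hq']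
    have h4 := congrFun (congrFun (h3.trans (adj_eig hQ h (t j))) i) j
    rw [mul_diagonal] at h4 ⊢
    exact h4
  refine ⟨V, q, ?_, hq', ?_⟩
  · rw [← residue_ne_zero_iff_isUnit, RingHom.map_det, RingHom.mapMatrix_apply, hV, det_mul,
      det_diagonal]
    refine mul_ne_zero hQ (Finset.prod_ne_zero_iff.mpr fun i _ =>
      Finset.prod_ne_zero_iff.mpr fun j hj => sub_ne_zero.mpr fun e => ?_)
    exact Finset.ne_of_mem_erase hj (ht e).symm
  · ext i j
    have h3 : (scalar (Fin D) (q j) - N) * ((scalar (Fin D) (q j) - N).adjugate * P) = 0 := by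
      rw [← Matrix.mul_assoc, mul_adjugate, ← Matrix.eval_charpoly, hq j, zero_smul,
        Matrix.zero_mul]
    rw [Matrix.sub_mul, sub_eq_zero] at h3
    have h4 := congrFun (congrFun h3 i) j
    rw [scalar_apply, diagonal_mul] at h4
    rw [mul_diagonal, mul_comm]
    exact h4.symm

end Diag

theorem snf : SNF := by
  intro A _ _ _ D M hM
  obtain ⟨t, w, ht, ht', hw, hli⟩ := hM
  let Q : Matrix (Fin D) (Fin D) (ResidueField A) := Matrix.of fun i j => w j i.succ
  have hQ : IsUnit Q := linearIndependent_cols_iff_isUnit.mp hli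
  have hQd : IsUnit Q.det := (isUnit_iff_isUnit_det Q).mp hQ
  let c0 : Fin D → ResidueField A := (fun j => w j 0) ᵥ* Q⁻¹
  have hc0 : c0 ᵥ* Q = fun j => w j 0 := by
    rw [vecMul_vecMul, nonsing_inv_mul _ hQd, vecMul_one]
  have h1 : fb (M.map (residue A)) c0 * Q = Q * diagonal t := by
    ext i j
    have h2 : (fb (M.map (residue A)) c0 * Q) i j =
        (fb (M.map (residue A)) c0 *ᵥ Fin.tail (w j)) i := rfl
    have h3 : c0 ⬝ᵥ Fin.tail (w j) = w j 0 := congrFun hc0 j
    rw [h2, fb_mulVec, h3, Fin.cons_self_tail, ← hw, mul_diagonal, mul_comm]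
    rfl
  choose c hc using fun j => residue_surjective (c0 j)
  have h2 : (fb M c).map (residue A) = fb (M.map (residue A)) c0 := by
    ext i j
    simp [fb, hc]
  obtain ⟨V, q, hV, hq, hN⟩ := exists_diag (fb M c) ht hQd.ne_zero (h2 ▸ h1)
  let g : Matrix (Fin (D + 1)) (Fin (D + 1)) A :=
    Matrix.of (Fin.cons (Fin.cons 1 fun j => -c j) fun i => Fin.cons 0 fun j => V⁻¹ i j)
  let h : Matrix (Fin (D + 1)) (Fin (D + 1)) A :=
    Matrix.of (Fin.cons (Fin.cons 1 fun j => (c ᵥ* V) j) fun i => Fin.cons 0 fun j => V i j)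
  have hgh : g * h = 1 := by
    ext a b
    refine Fin.cases ?_ (fun i => ?_) a <;> refine Fin.cases ?_ (fun j => ?_) b
    · simp [g, h, mul_apply, Fin.sum_univ_succ]
    · simp [g, h, mul_apply, Fin.sum_univ_succ, vecMul, dotProduct,
        one_apply_ne (Fin.succ_ne_zero j).symm]
    · simp [g, h, mul_apply, Fin.sum_univ_succ, one_apply_ne (Fin.succ_ne_zero i)]
    · have := congrFun (congrFun (nonsing_inv_mul V hV) i) j
      simpa [g, h, mul_apply, Fin.sum_univ_succ, one_apply] using this
  have hres : ∀ a : A, residue A a ≠ 0 → IsUnit a := fun a => (residue_ne_zero_iff_isUnit a).mp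
  refine ⟨g, q, V⁻¹ *ᵥ fun i => M i 0, ⟨isUnit_det_of_right_inverse hgh, fun a => ?_⟩,
    ⟨fun i l hil => hres _ ?_, fun i => ⟨hres _ ?_, hres _ ?_⟩⟩, ?_⟩
  · refine Fin.cases ?_ (fun i => ?_) a
    · simp [g]
    · simp [g, one_apply_ne (Fin.succ_ne_zero i)]
  · rw [map_sub, hq, hq]
    exact sub_ne_zero.mpr fun e => hil (ht e)
  · rw [hq]
    exact (ht' i).1
  · rw [map_sub, hq, map_one]
    exact sub_ne_zero.mpr (ht' i).2
  · have hg : g.submatrix Fin.succ Fin.succ = V⁻¹ := by
      ext i j
      simp [g]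
    have hd : V⁻¹ * (fb M c * V) = diagonal q := by
      rw [hN, ← Matrix.mul_assoc, nonsing_inv_mul V hV, Matrix.one_mul]
    rw [inv_eq_right_inv hgh, hg, Matrix.mul_assoc]
    ext i b
    refine Fin.cases ?_ (fun j => ?_) b
    · simp [h, nf, mul_apply, Fin.sum_univ_succ, mulVec, dotProduct]
    · have h3 : ∀ l, (M * h) l j.succ = (fb M c * V) l j := fun l => by
        have h4 : (fb M c * V) l j = (fb M c *ᵥ fun a => V a j) l := rfl
        rw [h4, fb_mulVec]
        simp [h, mul_apply, Fin.sum_univ_succ, mulVec, vecMul, dotProduct]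
      have h5 : (V⁻¹ * (M * h)) i j.succ = (V⁻¹ * (fb M c * V)) i j := by
        simp only [mul_apply (M := V⁻¹), h3]
      rw [h5, hd]
      simp [nf, diagonal_apply, eq_comm]

/-- Flatness can be tested after base change to Henselian local rings. -/
theorem flat_of_hensel (R S : Type) [CommRing R] [CommRing S] [Algebra R S] [Algebra ℂ R]
    [Algebra.FiniteType ℂ R]
    (H : ∀ (A : Type) [CommRing A] [IsLocalRing A] [HenselianRing A (maximalIdeal A)]
      [IsAlgClosed (ResidueField A)] [Algebra R A], Module.Flat A (A ⊗[R] S)) :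
    Module.Flat R S := by
  have : IsNoetherianRing R := Algebra.FiniteType.isNoetherianRing ℂ R
  refine Module.flat_of_isLocalized_maximal R S (fun P _ => Localization.AtPrime P ⊗[R] S)
    (fun P _ => TensorProduct.mk R (Localization.AtPrime P) S 1) fun P _ => ?_
  let L := Localization.AtPrime P
  let A := AdicCompletion (maximalIdeal L) L
  have hk : IsAlgClosed (ResidueField A) := by
    have h1 : Module.Finite ℂ (R ⧸ P) := by
      let _ := Ideal.Quotient.field P
      exact finite_of_finite_type_of_isJacobsonRing ℂ (R ⧸ P)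
    have h2 : Function.Bijective (algebraMap ℂ (R ⧸ P)) :=
      IsAlgClosed.algebraMap_bijective_of_isIntegral
    exact IsAlgClosed.of_ringEquiv ℂ _ (((RingEquiv.ofBijective _ h2).trans
      (IsLocalization.AtPrime.equivQuotMaximalIdeal P L)).trans
      (RingEquiv.ofBijective _ (AdicCompletion.residueField_map_bijective L)))
  have hf : Module.FaithfullyFlat L A := Module.FaithfullyFlat.of_flat_of_isLocalHom
  have h1 : Module.Flat A (A ⊗[R] S) := H A
  have h2 : Module.Flat A (A ⊗[L] (L ⊗[R] S)) :=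
    Module.Flat.of_linearEquiv (AlgebraTensorModule.cancelBaseChange R L A A S)
  have h3 : Module.Flat L (L ⊗[R] S) := Module.Flat.of_flat_tensorProduct L _ A
  exact Module.Flat.trans R L _

theorem sFlatD : SFlatD := by
  intro C X π p _ H
  refine ⟨fun {U} hU {V} hV e => ?_⟩
  let _ : Algebra ℂ Γ(X, U) := (alg p U).toAlgebra
  have : Algebra.FiniteType ℂ Γ(X, U) := by
    have h1 : (p.appLE ⊤ U le_top).hom.FiniteType :=
      LocallyOfFiniteType.finiteType_appLE p (isAffineOpen_top _) hU le_top
    exact h1.comp (RingHom.FiniteType.of_surjective _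
      (Scheme.ΓSpecIso (.of ℂ)).symm.commRingCatIsoToRingEquiv.surjective)
  let _ : Algebra Γ(X, U) Γ(C, V) := (π.appLE U V e).hom.toAlgebra
  refine flat_of_hensel Γ(X, U) Γ(C, V) fun A _ _ _ _ _ => ?_
  let φ : Γ(X, U) ⟶ CommRingCat.of A := CommRingCat.ofHom (algebraMap Γ(X, U) A)
  let x : Spec (.of A) ⟶ X := Spec.map φ ≫ hU.fromSpec
  have hx : ⊤ ≤ x ⁻¹ᵁ U := by
    rw [Scheme.Hom.comp_preimage, hU.fromSpec_preimage_self]
    exact le_rfl
  have hfl := H A x
  have hp := IsPullback.of_hasPullback π x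
  let W : (pullback π x).Opens := pullback.fst π x ⁻¹ᵁ V ⊓ pullback.snd π x ⁻¹ᵁ ⊤
  have hW : IsAffineOpen W := by
    have : IsAffine _ := hU
    have : IsAffine _ := hV
    have : IsAffine _ := isAffineOpen_top (Spec (.of A))
    exact .of_isIso (Scheme.Hom.isPullback_resLE hp hx e (UY := W) rfl).isoPullback.hom
  have h1 := (isIso_pushoutSection_iff hp hx e (UY := W) rfl).mp
    (isIso_pushoutSection_of_isAffineOpen hp hx e rfl hU (isAffineOpen_top _) hV)
  have h2 : x.appLE U ⊤ hx = φ ≫ (Scheme.ΓSpecIso (.of A)).inv := by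
    rw [Scheme.ΓSpecIso_inv_naturality, ← Scheme.Hom.appLE_comp_appLE _ _ U ⊤ ⊤
      hU.fromSpec_preimage_self.ge le_rfl, Scheme.Hom.appLE, hU.fromSpec_app_self]
    simp only [Category.assoc, ← Functor.map_comp, Iso.cancel_iso_inv_left]
    simp [Scheme.Hom.appLE]
  let ψ : CommRingCat.of A ⟶ Γ(pullback π x, W) :=
    (Scheme.ΓSpecIso (.of A)).inv ≫ (pullback.snd π x).appLE ⊤ W inf_le_right
  have h3 : IsPushout φ (π.appLE U V e) ψ ((pullback.fst π x).appLE V W inf_le_left) :=
    h1.flip.of_iso (Iso.refl _) (Scheme.ΓSpecIso (.of A)) (Iso.refl _) (Iso.refl _)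
      (by simp [h2]) (by simp) (by simp [ψ]) (by simp)
  have h4 : ψ.hom.Flat :=
    RingHom.Flat.comp (f := (Scheme.ΓSpecIso (.of A)).inv.hom) (RingHom.Flat.of_bijective
      (Scheme.ΓSpecIso (.of A)).symm.commRingCatIsoToRingEquiv.bijective)
      (Flat.flat_appLE _ (isAffineOpen_top _) hW inf_le_right)
  have h5 := CommRingCat.isPushout_tensorProduct Γ(X, U) A Γ(C, V)
  have h6 := h3.inl_isoIsPushout_hom _ _ h5
  have h7 : (ψ ≫ (h3.isoIsPushout _ _ h5).hom).hom.Flat :=
    RingHom.Flat.comp h4 (RingHom.Flat.of_bijective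
      (h3.isoIsPushout _ _ h5).commRingCatIsoToRingEquiv.bijective)
  rw [h6] at h7
  exact RingHom.flat_algebraMap_iff.mp h7

end Pool.Agent.MP_52bf41_ag.H15
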